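import Pool.Agent.H70.Mono.Defs2

/-!
# Project MONO, module A: the Grothendieck ring
-/

set_option autoImplicit false

namespace Pool.Agent.H70.Mono

open MvPolynomial

section A

variable {k : Type} [Field k] [Algebra k ℂ] {ι κ : Type}

theorem IsCons.univ : IsCons k (Set.univ : Set (ι → ℂ)) := by
  have h := IsCons.zero (k := k) (ι := ι) 0
  have e : {x : ι → ℂ | aeval x (0 : MvPolynomial ι k) = 0} = Set.univ := by
    ext x; simp
  rwa [e] at h

theorem IsCons.empty : IsCons k (∅ : Set (ι → ℂ)) := by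
  have h := IsCons.compl (IsCons.univ (k := k) (ι := ι))
  rwa [Set.compl_univ] at h

theorem IsCons.union {A B : Set (ι → ℂ)} (hA : IsCons k A) (hB : IsCons k B) :
    IsCons k (A ∪ B) := by
  have h := IsCons.compl (IsCons.inter (IsCons.compl hA) (IsCons.compl hB))
  rwa [Set.compl_inter, compl_compl, compl_compl] at h

/-- preimages under polynomial maps over `k` -/
theorem IsCons.preimage {A : Set (κ → ℂ)} (hA : IsCons k A) (p : κ → MvPolynomial ι k) :
    IsCons k {x : ι → ℂ | (fun j => aeval x (p j)) ∈ A} := by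
  induction hA with
  | zero q =>
    have h := IsCons.zero (k := k) (ι := ι) (bind₁ p q)
    have e : {x : ι → ℂ | (fun j => aeval x (p j)) ∈ {y : κ → ℂ | aeval y q = 0}} =
        {x : ι → ℂ | aeval x (bind₁ p q) = 0} := by
      ext x
      simp only [Set.mem_ofPred_eq]
      rw [aeval_bind₁]
    rwa [e]
  | compl _ ih => exact IsCons.compl ih
  | inter _ _ ih1 ih2 => exact IsCons.inter ih1 ih2

/-- preimages under maps forgetting, repeating or permuting coordinates -/
theorem IsCons.reindex {A : Set (κ → ℂ)} (hA : IsCons k A) (e : κ → ι) :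
    IsCons k {x : ι → ℂ | (fun j => x (e j)) ∈ A} := by
  have h := IsCons.preimage hA (fun j => (X (e j) : MvPolynomial ι k))
  simpa only [aeval_X] using h

theorem IsCons.iInter {J : Type} [Finite J] {A : J → Set (ι → ℂ)} (hA : ∀ j, IsCons k (A j)) :
    IsCons k (⋂ j, A j) := by
  classical
  have := Fintype.ofFinite J
  have h : ∀ s : Finset J, IsCons k (⋂ j ∈ s, A j) := by
    intro s
    induction s using Finset.induction_on with
    | empty => simpa using IsCons.univ (k := k) (ι := ι)
    | insert a s ha ih =>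
      rw [Finset.set_biInter_insert]
      exact IsCons.inter (hA a) ih
  have := h Finset.univ
  simpa using this

theorem cl_of_cons [hι : Finite ι] {A : Set (ι → ℂ)} (hA : IsCons k A) :
    cl k A = Ideal.Quotient.mk _ (X ⟨ι, hι, A, hA⟩) := by
  unfold cl
  rw [dif_pos hA]

theorem mk_rel {r : MvPolynomial (CSet k) ℤ} (h : Rel k r) :
    Ideal.Quotient.mk (Ideal.span {r | Rel k r}) r = 0 :=
  Ideal.Quotient.eq_zero_iff_mem.mpr (Ideal.subset_span h)

theorem cl_union [Finite ι] {A B : Set (ι → ℂ)} (hA : IsCons k A) (hB : IsCons k B)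
    (h : Disjoint A B) : cl k (A ∪ B) = cl k A + cl k B := by
  have h1 := mk_rel (Rel.add (k := k) inferInstance A B hA hB (IsCons.union hA hB) h)
  rw [cl_of_cons hA, cl_of_cons hB, cl_of_cons (IsCons.union hA hB)]
  rw [map_sub, map_sub] at h1
  linear_combination h1

theorem cl_empty [Finite ι] : cl k (∅ : Set (ι → ℂ)) = 0 := by
  have h := cl_union (k := k) (IsCons.empty (ι := ι)) (IsCons.empty (ι := ι))
    (Set.disjoint_empty _)
  rw [Set.union_empty] at h
  linear_combination -h

theorem cl_bij [Finite ι] [Finite κ] {A : Set (ι → ℂ)} {B : Set (κ → ℂ)} (hA : IsCons k A)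
    (hB : IsCons k B) (p : κ → MvPolynomial ι k)
    (h : Set.BijOn (fun x j => aeval x (p j)) A B) : cl k A = cl k B := by
  have h1 := mk_rel (Rel.bij (k := k) ⟨ι, inferInstance, A, hA⟩ ⟨κ, inferInstance, B, hB⟩ p h)
  rw [cl_of_cons hA, cl_of_cons hB]
  rw [map_sub] at h1
  linear_combination h1

theorem cl_reindex [Finite ι] [Finite κ] {A : Set (ι → ℂ)} {B : Set (κ → ℂ)} (hA : IsCons k A)
    (hB : IsCons k B) (e : κ → ι)
    (h : Set.BijOn (fun (x : ι → ℂ) (j : κ) => x (e j)) A B) : cl k A = cl k B := by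
  refine cl_bij hA hB (fun j => (X (e j) : MvPolynomial ι k)) ?_
  simpa only [aeval_X] using h

theorem isCons_prod {A : Set (ι → ℂ)} {B : Set (κ → ℂ)} (hA : IsCons k A)
    (hB : IsCons k B) : IsCons k
    {φ : ι ⊕ κ → ℂ | (fun i => φ (Sum.inl i)) ∈ A ∧ (fun i => φ (Sum.inr i)) ∈ B} :=
  IsCons.inter (IsCons.reindex hA Sum.inl) (IsCons.reindex hB Sum.inr)

theorem cl_prod [Finite ι] [Finite κ] {A : Set (ι → ℂ)} {B : Set (κ → ℂ)} (hA : IsCons k A)
    (hB : IsCons k B) :
    cl k {φ : ι ⊕ κ → ℂ | (fun i => φ (Sum.inl i)) ∈ A ∧ (fun i => φ (Sum.inr i)) ∈ B} =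
      cl k A * cl k B := by
  have h1 := mk_rel (Rel.mul (k := k) ⟨ι, inferInstance, A, hA⟩ ⟨κ, inferInstance, B, hB⟩
    (isCons_prod hA hB) inferInstance)
  rw [cl_of_cons hA, cl_of_cons hB, cl_of_cons (isCons_prod hA hB)]
  rw [map_sub, map_mul] at h1
  linear_combination h1

/-- reindexing by a bijection of the coordinates -/
theorem cl_univ_equiv [Finite ι] [Finite κ] (e : κ ≃ ι) :
    cl k (Set.univ : Set (ι → ℂ)) = cl k (Set.univ : Set (κ → ℂ)) := by
  refine cl_reindex IsCons.univ IsCons.univ e ⟨fun _ _ => Set.mem_univ _, ?_, ?_⟩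
  · intro x _ y _ hxy
    funext i
    have := congrFun hxy (e.symm i)
    simpa using this
  · intro y _
    refine ⟨fun i => y (e.symm i), Set.mem_univ _, ?_⟩
    funext j
    simp

theorem cl_univ_empty : cl k (Set.univ : Set (Empty → ℂ)) = 1 := by
  have h1 := mk_rel (Rel.one (k := k) IsCons.univ)
  rw [cl_of_cons IsCons.univ]
  rw [map_sub, map_one] at h1
  linear_combination h1

theorem cl_univ_sum [Finite ι] [Finite κ] :
    cl k (Set.univ : Set (ι ⊕ κ → ℂ)) =
      cl k (Set.univ : Set (ι → ℂ)) * cl k (Set.univ : Set (κ → ℂ)) := by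
  rw [← cl_prod IsCons.univ IsCons.univ]
  congr 1
  ext φ
  simp

theorem cl_univ [Finite ι] : cl k (Set.univ : Set (ι → ℂ)) = L k ^ Nat.card ι := by
  have key : ∀ (α : Type) [Finite α], ∀ h : Finite α,
      @cl k _ _ α h (Set.univ : Set (α → ℂ)) = L k ^ Nat.card α := by
    intro α _
    refine Finite.induction_empty_option
      (P := fun α => ∀ h : Finite α, @cl k _ _ α h (Set.univ : Set (α → ℂ)) = L k ^ Nat.card α)
      ?_ ?_ ?_ α
    · intro α β e ih h
      have : Finite α := Finite.of_equiv β e.symm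
      rw [cl_univ_equiv e, ih inferInstance, Nat.card_congr e]
    · intro h
      have e : Empty ≃ PEmpty.{1} := Equiv.equivOfIsEmpty _ _
      rw [cl_univ_equiv e, cl_univ_empty]
      simp
    · intro α _ ih h
      have e : α ⊕ Unit ≃ Option α := (Equiv.optionEquivSumPUnit α).symm
      rw [cl_univ_equiv e, cl_univ_sum, ih inferInstance, ← L]
      rw [Nat.card_congr e.symm, Nat.card_sum]
      simp [pow_succ]
  exact key ι inferInstance

theorem cl_ne [Finite ι] (i : ι) :
    cl k {x : ι → ℂ | x i ≠ 0} = (L k - 1) * L k ^ (Nat.card ι - 1) := by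
  classical
  have := Fintype.ofFinite ι
  have h0 : IsCons k {x : ι → ℂ | x i = 0} := by
    have h := IsCons.zero (k := k) (ι := ι) (X i)
    simpa only [aeval_X] using h
  have h1 : IsCons k {x : ι → ℂ | x i ≠ 0} := IsCons.compl h0
  have hd : Disjoint {x : ι → ℂ | x i = 0} {x : ι → ℂ | x i ≠ 0} := by
    rw [Set.disjoint_left]
    intro x hx hx'
    exact hx' hx
  have hu := cl_union h0 h1 hd
  have e1 : {x : ι → ℂ | x i = 0} ∪ {x : ι → ℂ | x i ≠ 0} = Set.univ := by
    ext x
    simp only [Set.mem_union, Set.mem_ofPred_eq, Set.mem_univ, iff_true]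
    exact em _
  rw [e1, cl_univ] at hu
  have h2 : cl k {x : ι → ℂ | x i = 0} = cl k (Set.univ : Set ({j // j ≠ i} → ℂ)) := by
    refine cl_reindex h0 IsCons.univ (fun j => (j : ι)) ⟨fun _ _ => Set.mem_univ _, ?_, ?_⟩
    · intro x hx y hy hxy
      funext j
      by_cases hj : j = i
      · subst hj
        exact (show x j = 0 from hx).trans (show y j = 0 from hy).symm
      · exact congrFun hxy ⟨j, hj⟩
    · intro y _
      refine ⟨fun j => if h : j = i then 0 else y ⟨j, h⟩, ?_, ?_⟩
      · simp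
      · funext j
        simp [j.2]
  have hc : Nat.card ι = Nat.card {j // j ≠ i} + 1 := by
    rw [Nat.card_eq_fintype_card, Nat.card_eq_fintype_card]
    have := Fintype.card_subtype_compl (fun j : ι => j = i)
    rw [Fintype.card_subtype_eq] at this
    have hpos : 0 < Fintype.card ι := Fintype.card_pos_iff.mpr ⟨i⟩
    simp only [ne_eq]
    omega
  rw [h2, cl_univ] at hu
  rw [hc] at hu ⊢
  rw [Nat.add_sub_cancel]
  rw [pow_succ] at hu
  linear_combination -hu

end A

end Pool.Agent.H70.Mono
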